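import Pool.Agent.U536.CF.TU
import Pool.Agent.Results.MP_2ad15a_nt.MultiplicativeValues

/-!
# The elliptic analogue of Schanuel's conjecture at integers with large common factors with the values of multiplicative functions

Let `F_1, ..., F_k` be positive multiplicative functions of at most polynomial growth such that `F_i p ≤ M p` for the
large primes `p`, with different values at different large primes; for example Euler's function or the sum of the
divisors. Let `b < 1` and `0 ≤ c < 2 b - 1`. Let `Λ` be a lattice with rational invariants, `θ_1, …, θ_r` distinct natural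
numbers, `δ` a natural number and `x_1, …, x_q` any complex numbers. For all tuples `m` in `[1, N]^k` but `N^k exp (-(log
N)^c)`, for EVERY tuple `w` of integers `w_i ≥ exp ((log N)^b)` such that `gcd(w_i, F_i(m_i)) ≥ w_j^ρ` for all `i`, `j`,
all families `p_1, …, p_n` (`n` arbitrary) in all the groups `Λ + ∑ ℤ l_{ij}`, `℘(l_{ij}) = w_i + θ_j`, which are
independent modulo `Λ` are free over their points and the constants `x_1, …, x_q`, for relations of degree at most `δ`
over number fields of degree at most `δ`; `ρ < 1` depends only on `Λ`, `θ`, `k`, `q`, `δ`, and the bound `N ≥ N₀` does not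
depend on `x`. The tuples `w` include all tuples of large divisors `w_i` of the `F_i(m_i)` of comparable size and their
multiples by small integers.

Proof. But for few exceptional `m_i ≤ N`, the number of `m_i` with `g ∣ F_i(m_i)` is at most `N τ_J(g) / g` up to a factor
`exp ((log N)^s)`, `J = (log N)^a`, `a < s < b`, for all `g`: write `m_i = k u` with `u` squarefree and composed of primes
larger than `N^(1/J)`, `k ≤ exp (4 (log N)^a)`. If `w` is an exceptional tuple with `w_i ≤ X`, then the `g_i = gcd(w_i,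
F_i(m_i))` are divisors of the `w_i` of size `≥ (X/2)^ρ`; there are few such tuples of divisors, and the inequality `τ_J^q
≤ τ_K` for `K ≥ J^q` with Hölder's inequality for tuples bounds the sum of `∏ τ_J(g_i) / g_i`. The file
`MultiplicativeValues` of the starting library treats the tuples `w = (F_i(m_i))` only, with `N^k / (log N)^U` exceptions.
-/

set_option autoImplicit false

namespace Pool.Agent.Results.MP_2ad15a_nt.CommonFactors

open scoped PeriodPair
open Pool.Agent.Results.MP_2ad15a_nt.GrowingDegreeSubgroups (integers IsLogs InGroup Independent FreeOverPoints)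
open Pool.Agent.N733.TG (LM lm_totient lm_sigma)
open Pool.Agent.U536.CF (CommonT avoidT commonT_of_dvd exists_rho)
open Pool.Agent.Results.MP_2ad15a_nt.MultiplicativeValues (Good nat_mem integers_card)

/-- **The elliptic analogue of Schanuel's conjecture at integers with large common factors with the values of multiplicative
functions.** Let `Λ` be a lattice with rational invariants, `θ_1, …, θ_r` distinct natural numbers, `δ` a natural number
and `x_1, …, x_q` any complex numbers. Let the `F_i` be multiplicative and positive, of at most polynomial growth, with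
`F_i p ≤ M p` at the large primes, and injective there. Let `b < 1` and `0 ≤ c < 2 b - 1`. For all large `N`, for all
tuples `m` in `[1, N]^k` but `N^k exp (-(log N)^c)`, for EVERY tuple `w` of integers `w_i ≥ exp ((log N)^b)` with
`gcd(w_i, F_i(m_i)) ≥ w_j^ρ` for all `i`, `j`, all families `p_1, …, p_n` (`n` arbitrary) in all the groups `Λ + ∑ ℤ
l_{ij}`, `℘(l_{ij}) = w_i + θ_j`, which are independent modulo `Λ` are free over their points and the constants `x_1, …,
x_q`, for relations of degree at most `δ` over number fields of degree at most `δ`; `ρ < 1` depends only on `Λ`, `θ`, `k`,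
`q`, `δ`, and the bound `N ≥ N₀` does not depend on `x`. Tuples of divisors `w_i ≥ exp ((log N)^b)` of the `F_i(m_i)` with
`w_j^ρ ≤ w_i` for all `i`, `j` are such tuples. Euler's function and the sum of the divisors are examples of the `F_i`. -/
theorem result :
    (∀ (Λ : PeriodPair) (g g' : ℚ), Λ.g₂ = g → Λ.g₃ = g' → ∀ (k r q : ℕ), 1 ≤ k →
      ∀ θ : Fin r → ℕ, Function.Injective θ → ∀ δ : ℕ, ∃ ρ : ℝ, 0 < ρ ∧ ρ < 1 ∧
      ∀ F : Fin k → ℕ → ℕ, (∀ i, LM (F i)) → ∀ b c : ℝ, b < 1 → 0 ≤ c → c < 2 * b - 1 →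
      ∃ N₀ : ℕ, ∀ N : ℕ, N₀ ≤ N → ∀ x : Fin q → ℂ,
        ({m : Fin k → ℕ | (∀ i, 1 ≤ m i ∧ m i ≤ N) ∧ ¬ ∀ w : Fin k → ℕ, CommonT F b ρ N m w →
          Good Λ δ θ x fun i => (w i : ℂ)}.ncard : ℝ) ≤ (N : ℝ) ^ k * Real.exp (-(Real.log N ^ c))) ∧
    (LM Nat.totient ∧ LM (fun m => ∑ d ∈ m.divisors, d)) ∧
    ∀ (k : ℕ) (F : Fin k → ℕ → ℕ) (b ρ : ℝ) (N : ℕ) (m w : Fin k → ℕ), (∀ i, Real.exp (Real.log N ^ b) ≤ (w i : ℝ)) →
      (∀ i, w i ∣ F i (m i)) → (∀ i j, (w j : ℝ) ^ ρ ≤ (w i : ℝ)) → CommonT F b ρ N m w := by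
  refine ⟨?_, ⟨lm_totient, lm_sigma⟩, fun k F b ρ N m w h1 h2 h3 => commonT_of_dvd h1 h2 h3⟩
  intro Λ a b ha hb k r q hk θ hθ δ
  obtain ⟨C, h⟩ := GrowingDegreeSubgroups.result Λ a b ha hb 1 k r q le_rfl θ hθ
  have hc : (0 : ℝ) < 1 / ((δ : ℝ) + 2) ^ C := by positivity
  obtain ⟨ρ, hρ0, hρ1, hρ⟩ := exists_rho hk hc
  refine ⟨ρ, hρ0, hρ1, fun F hF b₁ c₁ hb₁ hc₁ hcb => ?_⟩
  obtain ⟨N₀, hN₀⟩ := avoidT hk hF hρ0 hρ1.le hρ ((C : ℝ) * 3 ^ k) hb₁ hc₁ hcb
  refine ⟨N₀, fun N hN w => ?_⟩
  have h1 := hN₀ N hN {v : Fin k → ℕ | ¬ Good Λ δ θ w fun i => (v i : ℂ)} (fun X hX => ?_)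
  · refine le_trans (le_of_eq ?_) h1
    congr 2
    ext m
    simp only [Set.mem_ofPred_eq]
    refine and_congr Iff.rfl ⟨?_, ?_⟩
    · intro h
      by_contra hcon
      exact h (fun w hw => by_contra (fun h2 => hcon ⟨w, h2, hw⟩))
    · rintro ⟨w, h1, h2⟩ h3
      exact h1 (h3 w h2)
  · obtain ⟨hf, hle⟩ := h δ w X hX
    have hX0 : (0 : ℝ) < X := by exact_mod_cast hX
    have hsub : (fun (v : Fin k → ℕ) (i : Fin k) => (v i : ℂ)) ''
        {v : Fin k → ℕ | (∀ i, 2 ≤ v i ∧ v i ≤ X) ∧ v ∈ {v : Fin k → ℕ | ¬ Good Λ δ θ w fun i => (v i : ℂ)}} ⊆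
        {α : Fin k → ℂ | (∀ i, α i ∈ integers 1 X) ∧ ¬ ∀ l : Fin k × Fin r → ℂ, IsLogs Λ θ α l →
          ∀ (n : ℕ) (p : Fin n → ℂ), InGroup Λ l p → Independent Λ p → FreeOverPoints Λ δ w p} := by
      rintro _ ⟨v, ⟨hv1, hv2⟩, rfl⟩
      exact ⟨fun i => nat_mem X (v i) (hv1 i).2, hv2⟩
    have hinj : Function.Injective (fun (v : Fin k → ℕ) (i : Fin k) => (v i : ℂ)) := by
      intro u v huv
      funext i
      exact Nat.cast_injective (congrFun huv i)
    have hfin : {α : Fin k → ℂ | (∀ i, α i ∈ integers 1 X) ∧ ¬ ∀ l : Fin k × Fin r → ℂ, IsLogs Λ θ α l →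
          ∀ (n : ℕ) (p : Fin n → ℂ), InGroup Λ l p → Independent Λ p → FreeOverPoints Λ δ w p}.Finite := by
      apply (Set.Finite.pi' fun _ : Fin k => hf).subset
      rintro α ⟨h1, _⟩
      exact h1
    have h2 := Set.ncard_le_ncard hsub hfin
    rw [Set.ncard_image_of_injective _ hinj] at h2
    have h3 : ((integers 1 X).ncard : ℝ) ^ k ≤ (3 * (X : ℝ)) ^ k :=
      pow_le_pow_left₀ (Nat.cast_nonneg _) (integers_card X hX) k
    calc _ ≤ (({α : Fin k → ℂ | (∀ i, α i ∈ integers 1 X) ∧ ¬ ∀ l : Fin k × Fin r → ℂ, IsLogs Λ θ α l →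
          ∀ (n : ℕ) (p : Fin n → ℂ), InGroup Λ l p → Independent Λ p → FreeOverPoints Λ δ w p}.ncard : ℕ) : ℝ) := by
            exact_mod_cast h2
      _ ≤ C * (X : ℝ) ^ (-(1 / ((δ : ℝ) + 2) ^ C)) * ((integers 1 X).ncard : ℝ) ^ k := hle
      _ ≤ C * (X : ℝ) ^ (-(1 / ((δ : ℝ) + 2) ^ C)) * (3 * (X : ℝ)) ^ k :=
          mul_le_mul_of_nonneg_left h3 (by positivity)
      _ = C * 3 ^ k * (X : ℝ) ^ ((k : ℝ) - 1 / ((δ : ℝ) + 2) ^ C) := by
          rw [mul_pow, sub_eq_add_neg (k : ℝ), Real.rpow_add hX0, Real.rpow_natCast]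
          ring

end Pool.Agent.Results.MP_2ad15a_nt.CommonFactors
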