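import Pool.Agent.U536.DS.U
import Pool.Agent.Results.MP_2ad15a_nt.MultiplicativeValues

/-!
# The elliptic analogue of Schanuel's conjecture at the integral combinations of two divisors of the values of
multiplicative functions

Let `F_1, ..., F_k` be positive multiplicative functions of at most polynomial growth such that `F_i p ≤ M p` for the large
primes `p`, with different values at different large primes; for example Euler's function or the sum of the divisors. Let `b
< 1`, `μ < b` and `0 ≤ c < 2 b - 1`. Let `Λ` be a lattice with rational invariants, `θ_1, …, θ_r` distinct natural numbers,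
`δ` a natural number and `x_1, …, x_q` any complex numbers. For all tuples `m` in `[1, N]^k` but `N^k exp (-(log N)^c)`, for
EVERY tuple `w` of integers `w_i ≥ exp ((log N)^b)` of the form `w_i = u e + u' e'` with divisors `e`, `e'` of `F_i(m_i)`
and integers `|u|, |u'| ≤ exp ((log N)^μ)` (depending on `i`) such that `w_i ≥ w_j^ρ` for all `i`, `j`, all families `p_1,
…, p_n` (`n` arbitrary) in all the groups `Λ + ∑ ℤ l_{ij}`, `℘(l_{ij}) = w_i + θ_j`, which are independent modulo `Λ` are
free over their points and the constants `x_1, …, x_q`, for relations of degree at most `δ` over number fields of degree at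
most `δ`; `ρ < 1` depends only on `Λ`, `θ`, `k`, `q`, `δ`, and the bound `N ≥ N₀` does not depend on `x`. The tuples `w`
include all tuples of comparable size of large sums and differences `w_i` of ANY two divisors of the `F_i(m_i)`.

Proof. But for few exceptional `m_i ≤ N`, the number of `m_i` with `g ∣ F_i(m_i)` is at most `N τ_J(g) / g` up to a factor
`exp ((log N)^s)`, `J = (log N)^a`, `a < s < b`, for all `g`: write `m_i = k v` with `v` squarefree and composed of primes
larger than `N^(1/J)`, `k ≤ exp (4 (log N)^a)`. Take for `g` the least common multiples of the pairs `(e, e')`: the sum of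
`1 / [e, e']` over the pairs `e, e' ≤ X` with `u e + u' e' = w` is at most `4 U (1 + log X) τ(w) / w` if `|u|, |u'| ≤ U`;
the exceptional tuples `w` are few, and the inequality `τ_J^q ≤ τ_K` for `K ≥ J^q` with Hölder's inequality for tuples
bounds the sum over the tuples of pairs. The tuples of the hand-in `CommonFactors` of this page have large common factors
with the `F_i(m_i)`; the sums and differences of two divisors of `F_i(m_i)` have in general none. The file
`MultiplicativeValues` of the starting library treats the tuples `w = (F_i(m_i))` only, with `N^k / (log N)^U` exceptions.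
-/

set_option autoImplicit false

namespace Pool.Agent.Results.MP_2ad15a_nt.DivisorSums

open scoped PeriodPair
open Pool.Agent.Results.MP_2ad15a_nt.GrowingDegreeSubgroups (integers IsLogs InGroup Independent FreeOverPoints)
open Pool.Agent.N733.TG (LM lm_totient lm_sigma)
open Pool.Agent.U536.CF (exists_rho)
open Pool.Agent.U536.DS (CombT avoidT2 combT_pm)
open Pool.Agent.Results.MP_2ad15a_nt.MultiplicativeValues (Good nat_mem integers_card)

/-- **The elliptic analogue of Schanuel's conjecture at the integral combinations of two divisors of the values of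
multiplicative functions.** Let `Λ` be a lattice with rational invariants, `θ_1, …, θ_r` distinct natural numbers, `δ` a
natural number and `x_1, …, x_q` any complex numbers. Let the `F_i` be multiplicative and positive, of at most polynomial
growth, with `F_i p ≤ M p` at the large primes, and injective there. Let `b < 1`, `μ < b` and `0 ≤ c < 2 b - 1`. For all
large `N`, for all tuples `m` in `[1, N]^k` but `N^k exp (-(log N)^c)`, for EVERY tuple `w` of integers `w_i ≥ exp ((log
N)^b)` of the form `w_i = u e + u' e'` with divisors `e`, `e'` of `F_i(m_i)` and integers `|u|, |u'| ≤ exp ((log N)^μ)`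
(depending on `i`) with `w_i ≥ w_j^ρ` for all `i`, `j`, all families `p_1, …, p_n` (`n` arbitrary) in all the groups `Λ + ∑
ℤ l_{ij}`, `℘(l_{ij}) = w_i + θ_j`, which are independent modulo `Λ` are free over their points and the constants `x_1, …,
x_q`, for relations of degree at most `δ` over number fields of degree at most `δ`; `ρ < 1` depends only on `Λ`, `θ`, `k`,
`q`, `δ`, and the bound `N ≥ N₀` does not depend on `x`. The tuples of sums and differences `w_i ≥ exp ((log N)^b)` of two
divisors of the `F_i(m_i)` with `w_j^ρ ≤ w_i` for all `i`, `j` are such tuples. Euler's function and the sum of the divisors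
are examples of the `F_i`. -/
theorem result :
    (∀ (Λ : PeriodPair) (g g' : ℚ), Λ.g₂ = g → Λ.g₃ = g' → ∀ (k r q : ℕ), 1 ≤ k →
      ∀ θ : Fin r → ℕ, Function.Injective θ → ∀ δ : ℕ, ∃ ρ : ℝ, 0 < ρ ∧ ρ < 1 ∧
      ∀ F : Fin k → ℕ → ℕ, (∀ i, LM (F i)) → ∀ b μ c : ℝ, μ < b → b < 1 → 0 ≤ c → c < 2 * b - 1 →
      ∃ N₀ : ℕ, ∀ N : ℕ, N₀ ≤ N → ∀ x : Fin q → ℂ,
        ({m : Fin k → ℕ | (∀ i, 1 ≤ m i ∧ m i ≤ N) ∧ ¬ ∀ w : Fin k → ℕ, CombT F b μ ρ N m w →
          Good Λ δ θ x fun i => (w i : ℂ)}.ncard : ℝ) ≤ (N : ℝ) ^ k * Real.exp (-(Real.log N ^ c))) ∧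
    (LM Nat.totient ∧ LM (fun m => ∑ d ∈ m.divisors, d)) ∧
    ∀ (k : ℕ) (F : Fin k → ℕ → ℕ) (b μ ρ : ℝ) (N : ℕ) (m w : Fin k → ℕ), (∀ i, Real.exp (Real.log N ^ b) ≤ (w i : ℝ)) →
      (∀ i, ∃ s t : ℕ, s ∣ F i (m i) ∧ t ∣ F i (m i) ∧ (w i = s + t ∨ w i = s - t ∨ w i = s)) →
      (∀ i j, (w j : ℝ) ^ ρ ≤ (w i : ℝ)) → CombT F b μ ρ N m w := by
  refine ⟨?_, ⟨lm_totient, lm_sigma⟩, fun k F b μ ρ N m w h1 h2 h3 => combT_pm h1 h2 h3⟩
  intro Λ a b ha hb k r q hk θ hθ δ
  obtain ⟨C, h⟩ := GrowingDegreeSubgroups.result Λ a b ha hb 1 k r q le_rfl θ hθ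
  have hc : (0 : ℝ) < 1 / ((δ : ℝ) + 2) ^ C := by positivity
  obtain ⟨ρ, hρ0, hρ1, hρ⟩ := exists_rho hk hc
  refine ⟨ρ, hρ0, hρ1, fun F hF b₁ μ c₁ hμ hb₁ hc₁ hcb => ?_⟩
  obtain ⟨N₀, hN₀⟩ := avoidT2 hk hF hρ0 hρ1.le hρ ((C : ℝ) * 3 ^ k) hμ hb₁ hc₁ hcb
  refine ⟨N₀, fun N hN w => ?_⟩
  have h1 := hN₀ N hN {v : Fin k → ℕ | ¬ Good Λ δ θ w fun i => (v i : ℂ)} (fun X hX => ?_)
  · refine le_trans (le_of_eq ?_) h1
    congr 2
    ext m
    simp only [Set.mem_ofPred_eq]
    refine and_congr Iff.rfl ⟨?_, ?_⟩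
    · intro h
      by_contra hcon
      exact h (fun w hw => by_contra (fun h2 => hcon ⟨w, h2, hw⟩))
    · rintro ⟨w, h1, h2⟩ h3
      exact h1 (h3 w h2)
  · obtain ⟨hf, hle⟩ := h δ w X hX
    have hX0 : (0 : ℝ) < X := by exact_mod_cast hX
    have hsub : (fun (v : Fin k → ℕ) (i : Fin k) => (v i : ℂ)) ''
        {v : Fin k → ℕ | (∀ i, 2 ≤ v i ∧ v i ≤ X) ∧ v ∈ {v : Fin k → ℕ | ¬ Good Λ δ θ w fun i => (v i : ℂ)}} ⊆
        {α : Fin k → ℂ | (∀ i, α i ∈ integers 1 X) ∧ ¬ ∀ l : Fin k × Fin r → ℂ, IsLogs Λ θ α l →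
          ∀ (n : ℕ) (p : Fin n → ℂ), InGroup Λ l p → Independent Λ p → FreeOverPoints Λ δ w p} := by
      rintro _ ⟨v, ⟨hv1, hv2⟩, rfl⟩
      exact ⟨fun i => nat_mem X (v i) (hv1 i).2, hv2⟩
    have hinj : Function.Injective (fun (v : Fin k → ℕ) (i : Fin k) => (v i : ℂ)) := by
      intro u v huv
      funext i
      exact Nat.cast_injective (congrFun huv i)
    have hfin : {α : Fin k → ℂ | (∀ i, α i ∈ integers 1 X) ∧ ¬ ∀ l : Fin k × Fin r → ℂ, IsLogs Λ θ α l →
          ∀ (n : ℕ) (p : Fin n → ℂ), InGroup Λ l p → Independent Λ p → FreeOverPoints Λ δ w p}.Finite := by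
      apply (Set.Finite.pi' fun _ : Fin k => hf).subset
      rintro α ⟨h1, _⟩
      exact h1
    have h2 := Set.ncard_le_ncard hsub hfin
    rw [Set.ncard_image_of_injective _ hinj] at h2
    have h3 : ((integers 1 X).ncard : ℝ) ^ k ≤ (3 * (X : ℝ)) ^ k :=
      pow_le_pow_left₀ (Nat.cast_nonneg _) (integers_card X hX) k
    calc _ ≤ (({α : Fin k → ℂ | (∀ i, α i ∈ integers 1 X) ∧ ¬ ∀ l : Fin k × Fin r → ℂ, IsLogs Λ θ α l →
          ∀ (n : ℕ) (p : Fin n → ℂ), InGroup Λ l p → Independent Λ p → FreeOverPoints Λ δ w p}.ncard : ℕ) : ℝ) := by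
            exact_mod_cast h2
      _ ≤ C * (X : ℝ) ^ (-(1 / ((δ : ℝ) + 2) ^ C)) * ((integers 1 X).ncard : ℝ) ^ k := hle
      _ ≤ C * (X : ℝ) ^ (-(1 / ((δ : ℝ) + 2) ^ C)) * (3 * (X : ℝ)) ^ k :=
          mul_le_mul_of_nonneg_left h3 (by positivity)
      _ = C * 3 ^ k * (X : ℝ) ^ ((k : ℝ) - 1 / ((δ : ℝ) + 2) ^ C) := by
          rw [mul_pow, sub_eq_add_neg (k : ℝ), Real.rpow_add hX0, Real.rpow_natCast]
          ring

end Pool.Agent.Results.MP_2ad15a_nt.DivisorSums
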