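import Pool.Agent.U449.BV.VU
import Pool.Agent.Results.MP_2ad15a_nt.GrowingDegreeSubgroups

/-!
# The elliptic analogue of Schanuel's conjecture near the coordinates of polynomials on arbitrary sets

Let `E` be the elliptic curve `y² = 4 x³ - g₂ x - g₃` with rational `g₂`, `g₃` and let `Λ` be its lattice; `θ_1, …, θ_r` distinct natural
numbers. There is `c > 0` (explicit in the degree) such that the following holds for `κ ≥ 0`, `k - c + k κ < δ ≤ k`. Let `p` be a large
prime, `q = p ^ k`, `f(x, y)` ANY polynomial of degree at most `d` over the field of `q` elements with a monomial which contains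
both variables (for example `f = x y`), let `A`, `B` be ARBITRARY subsets of this field with at least `p ^ δ` elements, and `g`, `h`
ARBITRARY functions. For all the pairs `(a, b)` in `A × B`, apart from a proportion of at most `p ^ (-ρ)`, ALL tuples `α` of integers
at a distance of at most `p ^ κ` from the tuple of the least residues of the `k` coordinates of `f(a, b) + g(a) + h(b)` have the
following property, for all elliptic logarithms `l_{ij}` of the points with the abscissas `α_i + θ_j` and the group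
`Γ = Λ + ∑ ℤ l_{ij}`: for every `n` and all `p_1, …, p_n` in `Γ` which are linearly independent over `ℤ` modulo `Λ`, every polynomial
relation of degree at most `δ'`, over a number field of degree at most `δ'`, between arbitrary constants `w_1, …, w_q` and the `4 n`
numbers `p_i`, `ζ(p_i)`, `℘(p_i)`, `℘'(p_i)` is an identity in the `2 n` numbers `p_i`, `ζ(p_i)`. How large `p` has to be does not
depend on `w`. More generally, this holds for the values `F(a, b)` of all vector functions of two variables with few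
coincidences (`RareV`), on arbitrary finite sets.

Since the sets and the functions `g` and `h` are arbitrary, the tuples have no arithmetic structure, and a tuple may be
taken by very many pairs. So the number of the exceptions (starting library) does not give the result directly. Proof: the
inequality of Cauchy and Schwarz; for most pairs `a, a'` the difference `F(a, b) - F(a', b)` is small for few `b`
(`Pool.Agent.U449.BV`).
-/

set_option autoImplicit false

namespace Pool.Agent.Results.MP_2ad15a_nt.MixedPolynomials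

open scoped PeriodPair
open Finset
open Pool.Agent.U449.BV (RareV OnProductsU on_products_int_saving coordinates)
open Pool.Agent.Results.MP_2ad15a_nt.GrowingDegreeSubgroups (integers IsLogs InGroup Independent FreeOverPoints)

/-- All independent families of points of the group which is generated by the points with the abscissas `α_i + θ_j` are free
over their points and `w`, for relations of degree `≤ δ` over number fields of degree `≤ δ`. -/
def Good (Λ : PeriodPair) (δ : ℕ) {k r q : ℕ} (θ : Fin r → ℕ) (w : Fin q → ℂ) (α : Fin k → ℂ) : Prop :=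
  ∀ l : Fin k × Fin r → ℂ, IsLogs Λ θ α l →
    ∀ (n : ℕ) (p : Fin n → ℂ), InGroup Λ l p → Independent Λ p → FreeOverPoints Λ δ w p

/-- ALL tuples `α` of integers with `|α_i - x_i| ≤ W` for all `i` are `Good`. -/
def Near (Λ : PeriodPair) (δ : ℕ) (k : ℕ) {r q : ℕ} (θ : Fin r → ℕ) (w : Fin q → ℂ) (W : ℝ) (x : Fin k → ℝ) : Prop :=
  ∀ α : Fin k → ℤ, (∀ i, |(α i : ℝ) - x i| ≤ W) → Good Λ δ θ w fun i => (α i : ℂ)

lemma integers_one (T : ℕ) : integers 1 T ⊆ (fun n : ℤ => (n : ℂ)) '' (Set.Icc (-(T : ℤ)) T) := by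
  rintro α ⟨h1, h2, h3⟩
  have hq : IsIntegral ℚ α := h1.tower_top
  have hr : α ∈ (algebraMap ℚ ℂ).range := by
    rw [← minpoly.natDegree_eq_one_iff]
    have := minpoly.natDegree_pos hq
    omega
  obtain ⟨x, hx⟩ := hr
  have hx1 : IsIntegral ℤ x := by
    rw [← isIntegral_algebraMap_iff (algebraMap ℚ ℂ).injective, hx]
    exact h1
  obtain ⟨n, hn⟩ := IsIntegrallyClosed.isIntegral_iff.1 hx1
  have hα : α = (n : ℂ) := by
    rw [← hx, ← hn]
    simp
  have h4 := h3 α (minpoly.aeval ℚ α)
  refine ⟨n, ?_, hα.symm⟩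
  rw [hα, Complex.norm_intCast] at h4
  have h5 : |n| ≤ (T : ℤ) := by exact_mod_cast h4
  exact abs_le.1 h5

lemma integers_card (T : ℕ) (hT : 1 ≤ T) : ((integers 1 T).ncard : ℝ) ≤ 3 * T := by
  have h1 := Set.ncard_le_ncard (integers_one T) ((Set.finite_Icc (-(T : ℤ)) T).image _)
  have h2 := h1.trans (Set.ncard_image_le (Set.finite_Icc (-(T : ℤ)) T))
  rw [← Finset.coe_Icc, Set.ncard_coe_finset, Int.card_Icc] at h2
  have h3 : (integers 1 T).ncard ≤ 3 * T := by omega
  exact_mod_cast h3

lemma int_mem (T : ℕ) (v : ℤ) (hv : |v| ≤ (T : ℤ)) : (v : ℂ) ∈ integers 1 T := by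
  have h0 : (v : ℂ) = algebraMap ℚ ℂ (v : ℚ) := by simp
  have h1 : minpoly ℚ (v : ℂ) = Polynomial.X - Polynomial.C (v : ℚ) := by
    rw [h0]
    exact minpoly.eq_X_sub_C ℂ (v : ℚ)
  refine ⟨?_, ?_, ?_⟩
  · have : (v : ℂ) = algebraMap ℤ ℂ (v : ℤ) := by simp
    rw [this]
    exact isIntegral_algebraMap
  · rw [h1, Polynomial.natDegree_X_sub_C]
  · intro z hz
    rw [h1] at hz
    simp only [map_sub, Polynomial.aeval_X, Polynomial.aeval_C] at hz
    have hz1 : z = (v : ℂ) := by
      rw [sub_eq_zero] at hz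
      rw [hz, ← h0]
    rw [hz1, Complex.norm_intCast]
    exact_mod_cast hv

/-- **Theorem.** Let `Λ` be a lattice with rational invariants, `θ_1, …, θ_r` distinct natural numbers, `k ≥ 1`, and let `q`, `δ'` be
natural numbers. There is `c > 0` such that for all `κ ≥ 0` the property `Near`, with windows of length `X ^ κ`, holds, uniformly in
`w_1, …, w_q ∈ ℂ`, for almost all values of vector functions of two variables with few coincidences, on arbitrary finite sets of
at least `X ^ δ` elements, `k - c + k κ < δ ≤ k` (`OnProductsU`).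
The tuples of the least residues modulo `p` of the coordinates (with respect to a basis over the field of `p` elements) of
`f(a, b) + g(a) + h(b)` in a field of `p ^ k` elements are such a function, with `X = p`, for all polynomials `f` over this
field with a monomial which contains both variables, arbitrary functions `g` and `h`, and arbitrary finite subsets. -/
theorem result :
    (∀ (Λ : PeriodPair) (a b : ℚ), Λ.g₂ = a → Λ.g₃ = b → ∀ (k r q : ℕ), 1 ≤ k → ∀ θ : Fin r → ℕ, Function.Injective θ →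
      ∀ δ' : ℕ, ∃ c : ℝ, 0 < c ∧ ∀ κ : ℝ, 0 ≤ κ →
        OnProductsU k ((k : ℝ) - c + k * κ) κ (fun w : Fin q → ℂ => Near Λ δ' k θ w)) ∧
    ∀ (p : ℕ) [Fact p.Prime] (k : ℕ) (K : Type) [Field K] [Algebra (ZMod p) K] (e : Module.Basis (Fin k) (ZMod p) K)
      (d : ℕ) (f : MvPolynomial (Fin 2) K), f.totalDegree ≤ d → (∃ m ∈ f.support, m 0 ≠ 0 ∧ m 1 ≠ 0) →
      ∀ (g h : K → K) (A B : Finset K),
        RareV d A B (fun a b i => (((e.repr (MvPolynomial.eval ![a, b] f + g a + h b) i).val : ℕ) : ℝ)) := by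
  refine ⟨fun Λ a b ha hb k r q hk θ hθ δ => ?_, coordinates⟩
  obtain ⟨C, h⟩ := GrowingDegreeSubgroups.result Λ a b ha hb 1 k r q le_rfl θ hθ
  have hc : (0 : ℝ) < 1 / ((δ : ℝ) + 2) ^ C := by positivity
  have hk1 : (0 : ℝ) < k := by exact_mod_cast hk
  refine ⟨min (1 / ((δ : ℝ) + 2) ^ C) k, lt_min hc hk1, fun κ hκ => ?_⟩
  refine (on_products_int_saving (k := k) (Ω := Fin q → ℂ)
    (fun w => {α : Fin k → ℤ | ¬ Good Λ δ θ w fun i => (α i : ℂ)}) (c := 1 / ((δ : ℝ) + 2) ^ C) (C := (C : ℝ) * 3 ^ k) hκ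
    (fun w X hX => ?_)).mono id (fun w W x _ h' α hα => not_not.1 (h' α hα))
  obtain ⟨hf, hle⟩ := h δ w X hX
  have hX0 : (0 : ℝ) < X := by exact_mod_cast hX
  have hsub : (fun (v : Fin k → ℤ) (i : Fin k) => (v i : ℂ)) ''
      {v : Fin k → ℤ | (∀ i, |v i| ≤ (X : ℤ)) ∧ v ∈ {v : Fin k → ℤ | ¬ Good Λ δ θ w fun i => (v i : ℂ)}} ⊆
      {α : Fin k → ℂ | (∀ i, α i ∈ integers 1 X) ∧ ¬ ∀ l : Fin k × Fin r → ℂ, IsLogs Λ θ α l →
        ∀ (n : ℕ) (p : Fin n → ℂ), InGroup Λ l p → Independent Λ p → FreeOverPoints Λ δ w p} := by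
    rintro _ ⟨v, ⟨hv1, hv2⟩, rfl⟩
    exact ⟨fun i => int_mem X (v i) (hv1 i), hv2⟩
  have hinj : Function.Injective (fun (v : Fin k → ℤ) (i : Fin k) => (v i : ℂ)) := by
    intro u v huv
    funext i
    exact Int.cast_injective (congrFun huv i)
  have hfin : {α : Fin k → ℂ | (∀ i, α i ∈ integers 1 X) ∧ ¬ ∀ l : Fin k × Fin r → ℂ, IsLogs Λ θ α l →
        ∀ (n : ℕ) (p : Fin n → ℂ), InGroup Λ l p → Independent Λ p → FreeOverPoints Λ δ w p}.Finite := by
    apply (Set.Finite.pi' fun _ : Fin k => hf).subset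
    rintro α ⟨h1, _⟩
    exact h1
  have h2 := Set.ncard_le_ncard hsub hfin
  rw [Set.ncard_image_of_injective _ hinj] at h2
  have h3 : ((integers 1 X).ncard : ℝ) ^ k ≤ (3 * (X : ℝ)) ^ k :=
    pow_le_pow_left₀ (Nat.cast_nonneg _) (integers_card X hX) k
  calc _ ≤ (({α : Fin k → ℂ | (∀ i, α i ∈ integers 1 X) ∧ ¬ ∀ l : Fin k × Fin r → ℂ, IsLogs Λ θ α l →
        ∀ (n : ℕ) (p : Fin n → ℂ), InGroup Λ l p → Independent Λ p → FreeOverPoints Λ δ w p}.ncard : ℕ) : ℝ) := by
          exact_mod_cast h2
    _ ≤ C * (X : ℝ) ^ (-(1 / ((δ : ℝ) + 2) ^ C)) * ((integers 1 X).ncard : ℝ) ^ k := hle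
    _ ≤ C * (X : ℝ) ^ (-(1 / ((δ : ℝ) + 2) ^ C)) * (3 * (X : ℝ)) ^ k :=
        mul_le_mul_of_nonneg_left h3 (by positivity)
    _ = C * 3 ^ k * (X : ℝ) ^ ((k : ℝ) - 1 / ((δ : ℝ) + 2) ^ C) := by
        rw [mul_pow, sub_eq_add_neg (k : ℝ), Real.rpow_add hX0, Real.rpow_natCast]
        ring

end Pool.Agent.Results.MP_2ad15a_nt.MixedPolynomials
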