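import Pool.Agent.U405.RS.G5
import Pool.Agent.Results.MP_2ad15a_nt.MultiplicativeValues

/-!
# The elliptic analogue of Schanuel's conjecture over values of multiplicative functions at shifted primes and in short intervals

Let `F_1, …, F_k` be positive multiplicative functions of at most polynomial growth which for each `a ≥ 1` are injective at the
powers `p ^ a` of the large primes and at most `M p ^ a` there; for example Euler's function or the sum of the divisors. Let `E` be the elliptic curve `y² = 4 x³ - g₂ x - g₃` with rational `g₂`, `g₃` and let `Λ` be its lattice, and `θ_1, …, θ_r` distinct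
natural numbers. We show that for almost all `m` in products of thin sets the following is true for all elliptic logarithms
`l_{ij}` of the points with the abscissas `F_i(m_i) + θ_j`, and for the group `Γ = Λ + ∑ ℤ l_{ij}`: for every `n` and all
`p_1, …, p_n` in `Γ` which are linearly independent over `ℤ` modulo `Λ`, every polynomial relation of degree at most `δ`, over a
number field of degree at most `δ`, between arbitrary constants `w_1, …, w_q` and the `4 n` numbers `p_i`, `ζ(p_i)`, `℘(p_i)`,
`℘'(p_i)` is an identity in the `2 n` numbers `p_i`, `ζ(p_i)`.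

The starting theorem `MultiplicativeValues` of this problem treats the average over all tuples `m ∈ [1, N]^k`. Here each `m_i` runs
over a thin set: the shifted primes `p + a_i`, `p ≤ x`, for an arbitrary integer `a_i`, or an interval `(u, u + h]` with
`x^τ ≤ h ≤ x`, where `u ≤ x` and `1 - c / k < τ ≤ 1`; both kinds can be mixed. The tuples of values `(F_1(m_1), …, F_k(m_k))` are taken with large and
uneven multiplicities, so that the size of the exceptional set says nothing about them.

Proof. Own tool `Pool.Agent.U405.RS`. A thin set `S` has at most `B g^ω(n) |S| / n` multiples of `n` for every `n ≤ x^δ` (for the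
shifted primes by the Brun-Titchmarsh inequality of the library). Write `m_i = n_i w_i` with `n_i` composed of the primes
`≤ z = x^(1 / J)`, `J` a small multiple of `log log x`. By Rankin's method one has `n_i ≤ x^η` for most `m_i` in `S_i`; and `w_i` has at
most `J` prime factors and exponents `≤ J`, so that it is determined by `F_i(w_i)` up to `x^o(1)` possibilities. A slab of the
exceptional set is then covered by the fibres over one coordinate, and the saving `X^c` of the exceptional set is larger than the loss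
`x^(k (1 - τ))` from the short intervals. The bound for the exceptional tuples of integers is the starting theorem `GrowingDegreeSubgroups`.
-/

set_option autoImplicit false

open scoped PeriodPair

namespace Pool.Agent.Results.MP_2ad15a_nt.ThinTuples

open Pool.Agent.U405.RS
open Pool.Agent.Results.MP_2ad15a_nt.GrowingDegreeSubgroups (integers IsLogs InGroup Independent FreeOverPoints)
open Pool.Agent.Results.MP_2ad15a_nt.MultiplicativeValues (Good integers_card nat_mem)

/-- **The elliptic Schanuel bound over thin sets.** Let `Λ` be a lattice with rational invariants, `θ_1, …, θ_r` distinct natural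
numbers, `k ≥ 1`, and `q`, `δ` natural numbers. There is `c > 0` such that for all `F_1, …, F_k` in the class `PM`, all `U` and, uniformly,
all `w ∈ ℂ^q`, in the sense of `ThinAll c F U`
(with a saving of `(log x)^U`, uniformly in the parameter, for almost all `m` in all products `S_1 × ⋯ × S_k` of sets of shifted
primes `p + a_i`, `p ≤ x`, and intervals `(u, u + h]`, `u ≤ x`, `x^τ ≤ h ≤ x`, whenever `0 < τ ≤ 1`, `k τ > k - c`)
all `F_i(m_i)` are at least `2` and all families
`p_1, …, p_n` (`n` arbitrary) in all the groups `Λ + ∑ ℤ l_{ij}`, `℘(l_{ij}) = F_i(m_i) + θ_j`, which are independent modulo `Λ` are free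
over their points and `w`, for relations of degree at most `δ` over number fields of degree at most `δ`. Euler's function, the
sum of the divisors and the identity are in the class. -/
theorem result :
    (∀ (Λ : PeriodPair) (a b : ℚ), Λ.g₂ = a → Λ.g₃ = b → ∀ (k r q : ℕ), 1 ≤ k →
      ∀ θ : Fin r → ℕ, Function.Injective θ → ∀ δ : ℕ, ∃ c : ℝ, 0 < c ∧
      ∀ F : Fin k → ℕ → ℕ, (∀ i, PM (F i)) → ∀ U : ℕ,
        ThinAll c F U (fun (w : Fin q → ℂ) (v : Fin k → ℕ) => (∀ i, 2 ≤ v i) ∧ Good Λ δ θ w fun i => (v i : ℂ))) ∧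
    (PM Nat.totient ∧ PM (fun m => ∑ d ∈ m.divisors, d) ∧ PM (fun m => m)) := by
  refine ⟨fun Λ a b ha hb k r q hk θ hθ δ => ?_, examplesT⟩
  obtain ⟨C, h⟩ := GrowingDegreeSubgroups.result Λ a b ha hb 1 k r q le_rfl θ hθ
  have hc : (0 : ℝ) < 1 / ((δ : ℝ) + 2) ^ C := by positivity
  refine ⟨_, hc, fun F hF U => thinAll_two hk hF hc ((C : ℝ) * 3 ^ k)
    (fun (w : Fin q → ℂ) (v : Fin k → ℕ) => Good Λ δ θ w fun i => (v i : ℂ)) (fun w X hX => ?_) U⟩
  obtain ⟨hf, hle⟩ := h δ w X hX
  have hX0 : (0 : ℝ) < X := by exact_mod_cast hX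
  have hsub : (fun (v : Fin k → ℕ) (i : Fin k) => (v i : ℂ)) ''
      {v : Fin k → ℕ | (∀ i, 2 ≤ v i ∧ v i ≤ X) ∧ ¬ Good Λ δ θ w fun i => (v i : ℂ)} ⊆
      {α : Fin k → ℂ | (∀ i, α i ∈ integers 1 X) ∧ ¬ ∀ l : Fin k × Fin r → ℂ, IsLogs Λ θ α l →
        ∀ (n : ℕ) (p : Fin n → ℂ), InGroup Λ l p → Independent Λ p → FreeOverPoints Λ δ w p} := by
    rintro _ ⟨v, ⟨hv1, hv2⟩, rfl⟩
    exact ⟨fun i => nat_mem X (v i) (hv1 i).2, hv2⟩
  have hinj : Function.Injective (fun (v : Fin k → ℕ) (i : Fin k) => (v i : ℂ)) := by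
    intro u v huv
    funext i
    exact Nat.cast_injective (congrFun huv i)
  have hfin : {α : Fin k → ℂ | (∀ i, α i ∈ integers 1 X) ∧ ¬ ∀ l : Fin k × Fin r → ℂ, IsLogs Λ θ α l →
        ∀ (n : ℕ) (p : Fin n → ℂ), InGroup Λ l p → Independent Λ p → FreeOverPoints Λ δ w p}.Finite := by
    apply (Set.Finite.pi' fun _ : Fin k => hf).subset
    rintro α ⟨h1, _⟩
    exact h1
  have h2 := Set.ncard_le_ncard hsub hfin
  rw [Set.ncard_image_of_injective _ hinj] at h2
  have h3 : ((integers 1 X).ncard : ℝ) ^ k ≤ (3 * (X : ℝ)) ^ k :=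
    pow_le_pow_left₀ (Nat.cast_nonneg _) (integers_card X hX) k
  calc _ ≤ (({α : Fin k → ℂ | (∀ i, α i ∈ integers 1 X) ∧ ¬ ∀ l : Fin k × Fin r → ℂ, IsLogs Λ θ α l →
        ∀ (n : ℕ) (p : Fin n → ℂ), InGroup Λ l p → Independent Λ p → FreeOverPoints Λ δ w p}.ncard : ℕ) : ℝ) := by
          exact_mod_cast h2
    _ ≤ C * (X : ℝ) ^ (-(1 / ((δ : ℝ) + 2) ^ C)) * ((integers 1 X).ncard : ℝ) ^ k := hle
    _ ≤ C * (X : ℝ) ^ (-(1 / ((δ : ℝ) + 2) ^ C)) * (3 * (X : ℝ)) ^ k :=
        mul_le_mul_of_nonneg_left h3 (by positivity)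
    _ = C * 3 ^ k * (X : ℝ) ^ ((k : ℝ) - 1 / ((δ : ℝ) + 2) ^ C) := by
        rw [mul_pow, sub_eq_add_neg (k : ℝ), Real.rpow_add hX0, Real.rpow_natCast]
        ring

end Pool.Agent.Results.MP_2ad15a_nt.ThinTuples
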